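import Pool.Agent.Helper71_Miya.Easy
import Pool.Agent.Helper15_Miya.K55

/-!
# The shuffled Pythagorean exponential equation has no solution unless `f - g ≡ 1 (mod 8)`
-/

namespace Pool.Agent.Results.MP_d2d93c_nt.NotOneModEight

open Pool.Agent.H71M

/-- If `f > g ≥ 1` are coprime, of opposite parity, and `f - g` is not `1` modulo `8`, then the
equation `(f² + g²)^x + (2 f g)^y = (f² - g²)^z` has no solution in positive integers. -/
theorem result (f g : ℕ) (hg : 1 ≤ g) (hfg : g < f) (hc : Nat.Coprime f g) (ho : Odd (f + g))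
    (h8 : (f - g) % 8 ≠ 1) (x y z : ℕ) (hx : 0 < x) (hy : 0 < y) (hz : 0 < z) :
    (f ^ 2 + g ^ 2) ^ x + (2 * f * g) ^ y ≠ (f ^ 2 - g ^ 2) ^ z := by
  intro heq
  obtain ⟨d, rfl⟩ : ∃ d, f = g + d := ⟨f - g, by omega⟩
  have hd : d % 2 = 1 := by rw [Nat.odd_iff] at ho; omega
  have hcop : Nat.Coprime g d := by
    rw [add_comm] at hc
    exact (Nat.coprime_add_self_left.mp hc).symm
  have hA : (g + d) ^ 2 - g ^ 2 = Aa g d := by
    unfold Aa Ss
    rw [Nat.sq_sub_sq]
    rw [show g + d + g = 2 * g + d by ring, Nat.add_sub_cancel_left]; ring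
  rw [hA] at heq
  rw [Nat.add_sub_cancel_left] at h8
  have S : Sol g d x y z := ⟨hg, hd, hcop, hx, hy, hz, heq⟩
  have h4 : d % 8 = 3 ∨ d % 8 = 5 ∨ d % 8 = 7 := by omega
  rcases h4 with h | h | h
  · exact kd3 S h
  · rcases class_B (g := g) (d := d) hd with ⟨_, hC, _⟩ | ⟨_, _, ⟨h', _⟩ | ⟨_, h' | h'⟩⟩
    · have h3 := (k1b S hC).2.2.2
      have := mod8_of_primes (Nat.odd_iff.mpr hd) h3
      omega
    · omega
    · exact k53 S h h'
    · exact H15.k55 S h h'
  · exact d7 S h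

end Pool.Agent.Results.MP_d2d93c_nt.NotOneModEight
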