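import Pool.Agent.Helper80_MNE.Assemble

/-!
# The shuffled Pythagorean exponential equation: very few exceptions

Consider `(f²+g²)^x + (2fg)^y = (f²-g²)^z` for coprime integers `f > g ≥ 1` of opposite parity with
`f - g > 1`.

* (1) For every `ε > 0` at most `C(ε) N^ε` of the pairs `(f, g)` with `f ≤ N` admit a solution in
  positive integers `x, y, z`.
* (2) For fixed positive exponents `x, y, z` there are only finitely many such pairs `(f, g)`.

Proof.  Padé approximants show that in a solution with large exponents two of the three powers are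
extremely close.  Interpolation determinants (with a zero estimate) then bound the exponents by a
power of `log f`, and interpolation determinants with Rolle's theorem show that for fixed exponents
there are at most `C N^ε` such pairs.  Small exponents are excluded by (2), which is Runge's method.
-/

set_option autoImplicit false

namespace Pool.Agent.Results.MP_d2d93c_nt.FewExceptions

/-- The pairs of the problem with `f ≠ g + 1`: coprime integers `f > g ≥ 1` of opposite parity with
`f - g > 1`. -/
def Admissible (f g : ℕ) : Prop := 1 ≤ g ∧ g + 1 < f ∧ Nat.Coprime f g ∧ Odd (f + g)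

/-- `x, y, z` are positive integers and solve the equation of the problem for the pair `(f, g)`. -/
def Solves (f g x y z : ℕ) : Prop :=
  0 < x ∧ 0 < y ∧ 0 < z ∧ (f ^ 2 + g ^ 2) ^ x + (2 * f * g) ^ y = (f ^ 2 - g ^ 2) ^ z

/-- The exceptional pairs up to `N`: the pairs `(f, g)` with `f - g > 1` and `f ≤ N` for which the
equation has a solution in positive integers. -/
def Exceptional (N : ℕ) : Set (ℕ × ℕ) :=
  {q | Admissible q.1 q.2 ∧ q.1 ≤ N ∧ ∃ x y z : ℕ, Solves q.1 q.2 x y z}

/-- (1) For every `ε > 0` there are at most `C N^ε` exceptional pairs up to `N`.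
(2) For fixed exponents there are only finitely many exceptional pairs. -/
theorem result :
    (∀ ε : ℝ, 0 < ε → ∃ C : ℝ, ∀ N : ℕ, 1 ≤ N →
      ((Exceptional N).ncard : ℝ) ≤ C * (N : ℝ) ^ ε) ∧
    (∀ x y z : ℕ, {q : ℕ × ℕ | Admissible q.1 q.2 ∧ Solves q.1 q.2 x y z}.Finite) := by
  have key : ∀ f g x y z : ℕ, (Admissible f g ∧ Solves f g x y z) ↔ MNE.Sol f g x y z := by
    intro f g x y z
    constructor
    · rintro ⟨⟨h1, h2, h3, h4⟩, h5, h6, h7, h8⟩
      exact ⟨h1, h2, h3, h4, h5, h6, h7, h8⟩
    · intro h
      exact ⟨⟨h.hg, h.hd, h.co, h.odd⟩, h.hx, h.hy, h.hz, h.eq⟩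
  constructor
  · intro ε hε
    obtain ⟨C, hC⟩ := MNE.H80.finAll ε hε
    refine ⟨C, fun N hN => ?_⟩
    have h1 : Exceptional N = MNE.Exc N := by
      ext q
      constructor
      · rintro ⟨h1, h2, x, y, z, h3⟩
        exact ⟨h2, x, y, z, (key _ _ _ _ _).1 ⟨h1, h3⟩⟩
      · rintro ⟨h2, x, y, z, h3⟩
        have h4 := (key _ _ _ _ _).2 h3
        exact ⟨h4.1, h2, x, y, z, h4.2⟩
    rw [h1]
    exact hC N hN
  · intro x y z
    have h1 : {q : ℕ × ℕ | Admissible q.1 q.2 ∧ Solves q.1 q.2 x y z}
        = {p : ℕ × ℕ | MNE.Sol p.1 p.2 x y z} := by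
      ext q
      exact key _ _ _ _ _
    rw [h1]
    exact MNE.H80.fixAll x y z

end Pool.Agent.Results.MP_d2d93c_nt.FewExceptions
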