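import Pool.Agent.Helper71_Miya.Easy

/-!
# The shuffled Pythagorean exponential equation when `4` does not divide `f g`

If `f, g` are coprime, of opposite parity and `f g ≡ 2 (mod 4)`, then every solution of
`(f² + g²)^x + (2 f g)^y = (f² - g²)^z` in positive integers has `y = 1`, `x ≡ 1 (mod 4)`,
`z ≡ 2 (mod 4)`, and every prime factor of `f - g` is `≡ 1 (mod 8)`.
-/

namespace Pool.Agent.Results.MP_d2d93c_nt.FourNotDividing

open Pool.Agent.H71M

/-- In the case `f g ≡ 2 (mod 4)` every solution has `y = 1`, `x ≡ 1 (mod 4)`, `z ≡ 2 (mod 4)`, and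
every prime factor of `f - g` is `1` modulo `8`. -/
theorem result (f g : ℕ) (hg : 1 ≤ g) (hfg : g < f) (hc : Nat.Coprime f g) (ho : Odd (f + g))
    (h4 : f * g % 4 = 2) (x y z : ℕ) (hx : 0 < x) (hy : 0 < y) (hz : 0 < z)
    (heq : (f ^ 2 + g ^ 2) ^ x + (2 * f * g) ^ y = (f ^ 2 - g ^ 2) ^ z) :
    y = 1 ∧ x % 4 = 1 ∧ z % 4 = 2 ∧ ∀ p : ℕ, p.Prime → p ∣ f - g → p % 8 = 1 := by
  obtain ⟨d, rfl⟩ : ∃ d, f = g + d := ⟨f - g, by omega⟩
  have hd : d % 2 = 1 := by rw [Nat.odd_iff] at ho; omega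
  have hcop : Nat.Coprime g d := by
    rw [add_comm] at hc
    exact (Nat.coprime_add_self_left.mp hc).symm
  have hA : (g + d) ^ 2 - g ^ 2 = Aa g d := by
    unfold Aa Ss
    rw [Nat.sq_sub_sq]
    rw [show g + d + g = 2 * g + d by ring, Nat.add_sub_cancel_left]; ring
  rw [hA] at heq
  have S : Sol g d x y z := ⟨hg, hd, hcop, hx, hy, hz, heq⟩
  have hC : Cc g d % 8 = 5 := by
    rcases class_B (g := g) (d := d) hd with ⟨_, h, _⟩ | ⟨h, _, _⟩
    · exact h
    · exfalso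
      have h5 : Bb g d = 2 * ((g + d) * g) := by unfold Bb; ring
      omega
  obtain ⟨h1, h2, h3, h5⟩ := k1b S hC
  rw [Nat.add_sub_cancel_left]
  refine ⟨h1, h2, ?_, h5⟩
  have hd1 := mod8_of_primes (Nat.odd_iff.mpr hd) h5
  by_contra hz4
  have h6 := rl_even S (Z := z / 2) (by omega) (by omega) (by omega)
  rcases class_B (g := g) (d := d) hd with ⟨_, _, ⟨_, h⟩ | ⟨h, _⟩⟩ | ⟨_, h, _⟩
  · rw [two_neg h] at h6; norm_num at h6
  · omega
  · omega

end Pool.Agent.Results.MP_d2d93c_nt.FourNotDividing
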