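import Pool.Agent.Helper78_SHP.PAD
import Pool.Agent.Helper78_SHP.PIN
import Pool.Agent.Helper78_SHP.FIN
import Pool.Agent.Helper37_SHP.Key
import Pool.Agent.Helper76_SHP.Ner
import Pool.Agent.Helper24_SHP.FR2
import Pool.Agent.Helper40_SHP.F1b
import Pool.Agent.Helper40_SHP.F1r
import Pool.Agent.Helper56_SHP.Fr1

/-!
# The shuffled Pythagorean exponential equation near the two degenerate directions

Let `f > g ≥ 1` be coprime integers of opposite parity.  We prove that the equation
`(f² + g²)^x + (2 f g)^y = (f² - g²)^z` has no solution in positive integers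

* if `1 < f - g` and `(f - g)^12 ≤ f + g`, and
* if `(10 g)^12 ≤ f`.

The proof uses Padé approximants of `(1 + t)^N`: with `M = b₁ + b₂` (`M = (f + g)²` and
`{b₁, b₂} = {2 f g, f² + g²}` in the first case, `M = 2 f²`, `b₁ = f² - g²`, `b₂ = f² + g²` in the
second case) the equation becomes `U b₁^N ± U b₂^n = V M^N` with `U` very small; the approximants at
`t = -b₂/M`, with the divisibility by powers of `b₂`, bound `n` from above, and the approximants at
the small number `t = (b₁ - b₂)/M` bound `N - n` from above.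
-/

namespace Pool.Agent.Results.MP_d2d93c_nt.NearDegenerate

open Pool.Agent.SHP

/-- Let `f > g ≥ 1` be coprime integers of opposite parity such that `f ≠ g + 1` and
`(f - g)^12 ≤ f + g`, or `(10 g)^12 ≤ f`.  Then the equation
`(f² + g²)^x + (2 f g)^y = (f² - g²)^z` has no solution in positive integers. -/
theorem result (f g : ℕ) (hg : 1 ≤ g) (hfg : g < f) (hc : Nat.Coprime f g) (ho : Odd (f + g))
    (hreg : (f ≠ g + 1 ∧ (f - g) ^ 12 ≤ f + g) ∨ (10 * g) ^ 12 ≤ f)
    (x y z : ℕ) (hx : 0 < x) (hy : 0 < y) (hz : 0 < z) :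
    (f ^ 2 + g ^ 2) ^ x + (2 * f * g) ^ y ≠ (f ^ 2 - g ^ 2) ^ z :=
  have hpin : PinStmt := H78.pin H78.pad
  have hkey : KeyStmt := H37.key hpin
  H78.fin (H76.ner hkey) (H56.fr1 (H40.f1b hpin) (H40.f1r hpin)) (H24.fr2 hkey)
    f g hg hfg hc ho hreg x y z hx hy hz

end Pool.Agent.Results.MP_d2d93c_nt.NearDegenerate
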